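import Pool.Agent.H95.Poly.Open

/-!
# Generic polygons are dense

For `MP_8a5d4f_co` (project FL).
-/

set_option autoImplicit false

namespace Pool.Agent.H95.Poly

open Set Filter Topology Pool.Agent.H54.Fl Pool.Agent.H75.PolyJ

/-- the coordinates of the vertices -/
def co (v : ℕ → ℝ × ℝ) : ℕ × Bool → ℝ := fun i => if i.2 then (v i.1).1 else (v i.1).2

/-- a polynomial in the coordinates of the vertices -/
abbrev VP : Type := MvPolynomial (ℕ × Bool) ℝ

/-- the value of a polynomial at a sequence of vertices -/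
noncomputable def ev (v : ℕ → ℝ × ℝ) (P : VP) : ℝ := MvPolynomial.eval (co v) P

/-- Near every sequence of points there is one where a given nonzero polynomial in the
coordinates does not vanish. -/
theorem dense_ne {P : VP} (hP : P ≠ 0) (v : ℕ → ℝ × ℝ) : ∃ᶠ w in 𝓝 v, ev w P ≠ 0 := by
  by_contra hcon
  rw [Filter.not_frequently] at hcon
  simp only [not_not] at hcon
  -- a basic neighbourhood
  rw [nhds_pi] at hcon
  obtain ⟨I, t, ht, hsub⟩ : ∃ (I : Set ℕ) (t : ℕ → Set (ℝ × ℝ)), I.Finite ∧
      (∀ i, t i ∈ 𝓝 (v i)) ∧ I.pi t ⊆ {w | ev w P = 0} := by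
    obtain ⟨I, hI, t, ht1, ht2⟩ := Filter.mem_pi.1 hcon
    exact ⟨I, t, hI, ht1, ht2⟩
  obtain ⟨ht, hsub⟩ := hsub
  have hε : ∀ i, ∃ ε > 0, Metric.ball (v i) ε ⊆ t i := fun i => Metric.mem_nhds_iff.1 (ht i)
  choose ε hε0 hε1 using hε
  apply hP
  refine MvPolynomial.funext_set (fun i : ℕ × Bool => Ioo (co v i) (co v i + ε i.1))
    (fun i => Ioo_infinite (by linarith [hε0 i.1])) (fun x hx => ?_)
  rw [map_zero]
  set w : ℕ → ℝ × ℝ := fun i => (x (i, true), x (i, false)) with hw
  have hcw : co w = x := by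
    funext i
    obtain ⟨i, b⟩ := i
    cases b <;> simp [co, hw]
  have hmem : w ∈ I.pi t := by
    intro i _
    apply hε1 i
    rw [Metric.mem_ball, Prod.dist_eq, max_lt_iff, Real.dist_eq, Real.dist_eq, abs_lt, abs_lt]
    have h1 := hx (i, true) (mem_univ _)
    have h2 := hx (i, false) (mem_univ _)
    simp only [co, mem_Ioo, if_true, Bool.false_eq_true, if_false] at h1 h2
    have := hε0 i
    refine ⟨⟨?_, ?_⟩, ⟨?_, ?_⟩⟩ <;> simp only [hw] <;> linarith
  have := hsub hmem
  simp only [mem_setOf_eq, ev, hcw] at this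
  exact this

/-- finitely many polynomials -/
theorem dense_ne_finset {ι : Type*} (s : Finset ι) (P : ι → VP) (hP : ∀ i ∈ s, P i ≠ 0)
    (v : ℕ → ℝ × ℝ) : ∃ᶠ w in 𝓝 v, ∀ i ∈ s, ev w (P i) ≠ 0 := by
  have h0 : (∏ i ∈ s, P i) ≠ 0 := Finset.prod_ne_zero_iff.2 hP
  refine (dense_ne h0 v).mono fun w hw i hi h => hw ?_
  unfold ev at *
  rw [map_prod]
  exact Finset.prod_eq_zero hi h

/-- the orientation of three vertices as a polynomial -/
noncomputable def orientP (i j k : ℕ) : VP :=
  (MvPolynomial.X (j, true) - MvPolynomial.X (i, true)) *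
      (MvPolynomial.X (k, false) - MvPolynomial.X (i, false)) -
    (MvPolynomial.X (j, false) - MvPolynomial.X (i, false)) *
      (MvPolynomial.X (k, true) - MvPolynomial.X (i, true))

theorem ev_orientP (v : ℕ → ℝ × ℝ) (i j k : ℕ) : ev v (orientP i j k) =
    orient (v i) (v j) (v k) := by
  simp [ev, orientP, orient, co]

theorem orientP_ne {i j k : ℕ} (hij : i ≠ j) (hik : i ≠ k) (hjk : j ≠ k) :
    orientP i j k ≠ 0 := by
  intro h
  have h1 := ev_orientP (fun m => if m = j then (1, 0) else if m = k then (0, 1) else (0, 0))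
    i j k
  rw [h] at h1
  simp [ev, orient, hij, hik, hjk.symm] at h1

/-- no three vertices are collinear -/
def Gen (n : ℕ) (v : ℕ → ℝ × ℝ) : Prop :=
  ∀ i < n, ∀ j < n, ∀ k < n, i ≠ j → i ≠ k → j ≠ k → orient (v i) (v j) (v k) ≠ 0

/-- Near every polygon there are polygons in general position which avoid the zero set of a
given nonzero polynomial. -/
theorem frequently_gen (n : ℕ) {P : VP} (hP : P ≠ 0) (v : ℕ → ℝ × ℝ) :
    ∃ᶠ w in 𝓝 v, Gen n w ∧ ev w P ≠ 0 := by
  classical
  set s : Finset (ℕ × ℕ × ℕ) := ((Finset.range n) ×ˢ (Finset.range n) ×ˢ (Finset.range n)).filter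
    (fun x => x.1 ≠ x.2.1 ∧ x.1 ≠ x.2.2 ∧ x.2.1 ≠ x.2.2) with hs
  have h0 : (∏ x ∈ s, orientP x.1 x.2.1 x.2.2) * P ≠ 0 := by
    refine mul_ne_zero (Finset.prod_ne_zero_iff.2 ?_) hP
    intro x hx
    rw [hs, Finset.mem_filter] at hx
    exact orientP_ne hx.2.1 hx.2.2.1 hx.2.2.2
  refine (dense_ne h0 v).mono fun w hw => ?_
  unfold ev at hw
  rw [map_mul, map_prod, mul_ne_zero_iff, Finset.prod_ne_zero_iff] at hw
  refine ⟨?_, hw.2⟩
  intro i hi j hj k hk hij hik hjk
  have := hw.1 (i, j, k) (by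
    rw [hs, Finset.mem_filter]
    simp only [Finset.mem_product, Finset.mem_range]
    exact ⟨⟨hi, hj, hk⟩, hij, hik, hjk⟩)
  rw [← ev_orientP]
  exact this

/-- finitely many lines do not cover an open set: generic points are dense -/
theorem dense_compl_lines (s : Finset ((ℝ × ℝ) × (ℝ × ℝ))) (hs : ∀ l ∈ s, l.1 ≠ l.2) :
    Dense {p : ℝ × ℝ | ∀ l ∈ s, orient l.1 l.2 p ≠ 0} := by
  classical
  induction s using Finset.induction_on with
  | empty => simp
  | insert l s hl ih =>
    have h1 := ih fun m hm => hs m (Finset.mem_insert_of_mem hm)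
    have hopen : ∀ m : (ℝ × ℝ) × (ℝ × ℝ), IsOpen {p : ℝ × ℝ | orient m.1 m.2 p ≠ 0} := by
      intro m
      have : Continuous fun p : ℝ × ℝ => orient m.1 m.2 p := by unfold orient; fun_prop
      exact isOpen_ne.preimage this
    have h2 : Dense {p : ℝ × ℝ | orient l.1 l.2 p ≠ 0} := by
      have hne := hs l (Finset.mem_insert_self _ _)
      intro p
      rw [mem_closure_iff_frequently]
      by_contra hcon
      rw [Filter.not_frequently] at hcon
      simp only [mem_setOf_eq, not_not] at hcon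
      obtain ⟨ε, hε, hb⟩ := Metric.eventually_nhds_iff.1 hcon
      have hp := hb (y := p) (by simpa using hε)
      have e1 := hb (y := (p.1 + ε / 2, p.2)) (by
        rw [Prod.dist_eq, max_lt_iff, Real.dist_eq, Real.dist_eq]
        refine ⟨?_, ?_⟩
        · simp only [add_sub_cancel_left]; rw [abs_of_pos (by positivity)]; linarith
        · simpa using hε)
      have e2 := hb (y := (p.1, p.2 + ε / 2)) (by
        rw [Prod.dist_eq, max_lt_iff, Real.dist_eq, Real.dist_eq]
        refine ⟨?_, ?_⟩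
        · simpa using hε
        · simp only [add_sub_cancel_left]; rw [abs_of_pos (by positivity)]; linarith)
      unfold orient at hp e1 e2
      simp only at e1 e2
      have f1 : (l.2.2 - l.1.2) * (ε / 2) = 0 := by linarith
      have f2 : (l.2.1 - l.1.1) * (ε / 2) = 0 := by linarith
      have g1 : l.2.2 = l.1.2 := by
        rcases mul_eq_zero.1 f1 with h | h
        · linarith
        · linarith
      have g2 : l.2.1 = l.1.1 := by
        rcases mul_eq_zero.1 f2 with h | h
        · linarith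
        · linarith
      exact hne (Prod.ext g2.symm g1.symm)
    have h3 := h2.inter_of_isOpen_left h1 (hopen l)
    refine h3.mono ?_
    rintro p ⟨hp1, hp2⟩ m hm
    rcases Finset.mem_insert.1 hm with rfl | hm
    · exact hp1
    · exact hp2 m hm

end Pool.Agent.H95.Poly
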