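import Pool.Agent.H95.Poly.Gen

/-!
# Light sets pass to limits of polygons; generic points are enough

For `MP_8a5d4f_co` (project FL).
-/

set_option autoImplicit false

namespace Pool.Agent.H95.Poly

open Set Filter Topology Pool.Agent.H54.Fl Pool.Agent.H75.PolyJ

/-- the points off the curve around which the curve winds -/
def Ins (n : ℕ) (v : ℕ → ℝ × ℝ) : Set (ℝ × ℝ) := {p | p ∉ curve n v ∧ wind n v p ≠ 0}

/-- the region is described by the winding number -/
def RegW (n : ℕ) (v : ℕ → ℝ × ℝ) : Prop := region n v = curve n v ∪ Ins n v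

theorem isOpen_Ins (n : ℕ) (v : ℕ → ℝ × ℝ) : IsOpen (Ins n v) := by
  rw [isOpen_iff_mem_nhds]
  rintro p ⟨h1, h2⟩
  filter_upwards [wind_eventually h1] with q hq
  exact ⟨hq.1, by rw [hq.2]; exact h2⟩

theorem isClosed_union (n : ℕ) (v : ℕ → ℝ × ℝ) : IsClosed (curve n v ∪ Ins n v) := by
  rw [← isOpen_compl_iff, isOpen_iff_mem_nhds]
  intro p hp
  rw [mem_compl_iff, mem_union, not_or] at hp
  have h0 : wind n v p = 0 := by
    by_contra h; exact hp.2 ⟨hp.1, h⟩
  filter_upwards [wind_eventually hp.1] with q hq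
  rw [mem_compl_iff, mem_union, not_or]
  refine ⟨hq.1, fun h => h.2 ?_⟩
  rw [hq.2, h0]

theorem isClosed_region {n : ℕ} {v : ℕ → ℝ × ℝ} (h : RegW n v) : IsClosed (region n v) := by
  rw [h]; exact isClosed_union n v

/-- The set of the points lit by one floodlight is closed. -/
theorem isClosed_lit {P : Set (ℝ × ℝ)} (hP : IsClosed P) (p N : ℝ × ℝ) :
    IsClosed {q | Lit P p N q} := by
  have h1 : IsClosed {q : ℝ × ℝ | q ∈ halfPlane p N} := by
    unfold halfPlane
    simp only [mem_setOf_eq]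
    exact isClosed_le continuous_const (by fun_prop)
  have h2 : IsClosed {q : ℝ × ℝ | segment ℝ p q ⊆ P} := by
    have : {q : ℝ × ℝ | segment ℝ p q ⊆ P} =
        ⋂ s ∈ Icc (0 : ℝ) 1, {q : ℝ × ℝ | (1 - s) • p + s • q ∈ P} := by
      ext q
      simp only [mem_setOf_eq, mem_iInter]
      constructor
      · intro h s hs
        apply h
        rw [segment_eq_image]
        exact ⟨s, hs, rfl⟩
      · intro h x hx
        rw [segment_eq_image] at hx
        obtain ⟨s, hs, rfl⟩ := hx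
        exact h s hs
    rw [this]
    apply isClosed_biInter
    intro s _
    have hc : Continuous fun q : ℝ × ℝ => (1 - s) • p + s • q := by fun_prop
    exact hP.preimage hc
  exact h1.inter h2

/-- Generic points are enough: if all points of the open inside which lie in a dense set are lit,
then all points of the region are. -/
theorem illuminates_of_dense {n : ℕ} {v : ℕ → ℝ × ℝ} (hR : RegW n v)
    (hD : curve n v ⊆ closure (Ins n v)) {S : Finset ℕ} {N : ℕ → ℝ × ℝ} {G : Set (ℝ × ℝ)}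
    (hG : Dense G) (h : ∀ q ∈ Ins n v, q ∈ G → ∃ i ∈ S, Lit (region n v) (v i) (N i) q) :
    Illuminates n v S N := by
  have hcl : IsClosed (⋃ i ∈ S, {q | Lit (region n v) (v i) (N i) q}) := by
    apply Set.Finite.isClosed_biUnion S.finite_toSet
    intro i _
    exact isClosed_lit (isClosed_region hR) _ _
  have h1 : Ins n v ∩ G ⊆ ⋃ i ∈ S, {q | Lit (region n v) (v i) (N i) q} := by
    rintro q ⟨hq1, hq2⟩
    obtain ⟨i, hi, hl⟩ := h q hq1 hq2
    exact mem_biUnion hi hl
  have h2 : Ins n v ⊆ closure (Ins n v ∩ G) := hG.open_subset_closure_inter (isOpen_Ins n v)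
  have h3 : region n v ⊆ ⋃ i ∈ S, {q | Lit (region n v) (v i) (N i) q} := by
    have h4 : closure (Ins n v) ⊆ ⋃ i ∈ S, {q | Lit (region n v) (v i) (N i) q} :=
      closure_minimal (h2.trans (closure_minimal h1 hcl)) hcl
    intro q hq
    have hq' : q ∈ curve n v ∪ Ins n v := (Set.ext_iff.1 hR q).1 hq
    rcases hq' with h | h
    · exact h4 (hD h)
    · exact h4 (subset_closure h)
  intro q hq
  have := h3 hq
  rw [mem_iUnion₂] at this
  obtain ⟨i, hi, hl⟩ := this
  exact ⟨i, hi, hl⟩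

/-- scaling of a normal -/
theorem halfPlane_smul {p N : ℝ × ℝ} {c : ℝ} (hc : 0 < c) : halfPlane p (c • N) = halfPlane p N := by
  ext q
  unfold halfPlane
  simp only [mem_setOf_eq, Prod.smul_fst, Prod.smul_snd, smul_eq_mul]
  have e : c * N.1 * (q.1 - p.1) + c * N.2 * (q.2 - p.2) =
      c * (N.1 * (q.1 - p.1) + N.2 * (q.2 - p.2)) := by ring
  rw [e]
  constructor
  · intro h
    exact nonneg_of_mul_nonneg_right h hc
  · intro h
    exact mul_nonneg hc.le h

/-- the polygon can be lit by `k` lights -/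
def CanLight (n : ℕ) (v : ℕ → ℝ × ℝ) (k : ℕ) : Prop :=
  ∃ (S : Finset ℕ) (N : ℕ → ℝ × ℝ), IsLightSet n v S N ∧ Illuminates n v S N ∧ S.card ≤ k

/-- normals may be taken of norm one -/
theorem canLight_unit {n : ℕ} {v : ℕ → ℝ × ℝ} {k : ℕ} (h : CanLight n v k) :
    ∃ (S : Finset ℕ) (N : ℕ → ℝ × ℝ), IsLightSet n v S N ∧ Illuminates n v S N ∧ S.card ≤ k ∧
      ∀ i, ‖N i‖ = 1 := by
  classical
  obtain ⟨S, N, h1, h2, h3⟩ := h
  set M : ℕ → ℝ × ℝ := fun i => if i ∈ S then (‖N i‖⁻¹) • N i else (1, 0) with hM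
  have hMS : ∀ i ∈ S, M i = (‖N i‖⁻¹) • N i := fun i hi => by simp [hM, hi]
  have hpos : ∀ i ∈ S, 0 < ‖N i‖⁻¹ := fun i hi => inv_pos.2 (norm_pos_iff.2 (h1 i hi).2.1)
  refine ⟨S, M, ?_, ?_, h3, ?_⟩
  · intro i hi
    obtain ⟨a, b, c⟩ := h1 i hi
    refine ⟨a, ?_, ?_⟩
    · rw [hMS i hi]
      exact smul_ne_zero (hpos i hi).ne' b
    · rw [hMS i hi, halfPlane_smul (hpos i hi)]
      exact c
  · intro q hq
    obtain ⟨i, hi, hl⟩ := h2 q hq
    refine ⟨i, hi, ?_⟩
    unfold Lit at *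
    rw [hMS i hi, halfPlane_smul (hpos i hi)]
    exact hl
  · intro i
    by_cases hi : i ∈ S
    · rw [hMS i hi, norm_smul, norm_inv, norm_norm]
      exact inv_mul_cancel₀ (norm_pos_iff.2 (h1 i hi).2.1).ne'
    · simp [hM, hi, Prod.norm_def]

/-- Light sets pass to the limit. -/
theorem canLight_limit {n : ℕ} {v : ℕ → ℝ × ℝ} {k : ℕ}
    (hR : ∀ w, IsSimplePolygon n w → RegW n w) (hv : IsSimplePolygon n v)
    (hD : curve n v ⊆ closure (Ins n v))
    (hA : ∀ i < n, ∀ N : ℝ × ℝ, ‖N‖ = 1 →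
      (∃ᶠ x : (ℕ → ℝ × ℝ) × (ℝ × ℝ) in 𝓝 (v, N), IsSimplePolygon n x.1 ∧ x.2 ≠ 0 ∧
        InwardFacing (region n x.1) (x.1 i) (halfPlane (x.1 i) x.2)) →
      InwardFacing (region n v) (v i) (halfPlane (v i) N))
    (hG : ∃ᶠ w in 𝓝 v, IsSimplePolygon n w ∧ CanLight n w k) : CanLight n v k := by
  classical
  -- an ultrafilter on good polygons converging to `v`
  obtain ⟨F, hFv, hFG⟩ : ∃ F : Ultrafilter (ℕ → ℝ × ℝ), (F : Filter (ℕ → ℝ × ℝ)) ≤ 𝓝 v ∧
      ∀ᶠ w in F, IsSimplePolygon n w ∧ CanLight n w k := by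
    have hne : (𝓝 v ⊓ 𝓟 {w | IsSimplePolygon n w ∧ CanLight n w k}).NeBot :=
      Filter.frequently_mem_iff_neBot.1 hG
    refine ⟨Ultrafilter.of (𝓝 v ⊓ 𝓟 {w | IsSimplePolygon n w ∧ CanLight n w k}), ?_, ?_⟩
    · exact (Ultrafilter.of_le _).trans inf_le_left
    · have := (Ultrafilter.of_le (𝓝 v ⊓ 𝓟 {w | IsSimplePolygon n w ∧ CanLight n w k})).trans
        inf_le_right
      exact this (mem_principal_self _)
  have hch : ∀ w : ℕ → ℝ × ℝ, ∃ (S : Finset ℕ) (N : ℕ → ℝ × ℝ), CanLight n w k →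
      IsLightSet n w S N ∧ Illuminates n w S N ∧ S.card ≤ k ∧ ∀ i, ‖N i‖ = 1 := by
    intro w
    by_cases h : CanLight n w k
    · obtain ⟨S, N, h'⟩ := canLight_unit h
      exact ⟨S, N, fun _ => h'⟩
    · exact ⟨∅, fun _ => 0, fun h' => absurd h' h⟩
  choose Sf Nf hSN using hch
  -- the set of vertices is constant along `F`
  obtain ⟨S, hSF⟩ : ∃ S : Finset ℕ, ∀ᶠ w in F, Sf w = S := by
    have h1 : ∀ᶠ w in F, ∃ S ∈ ((Finset.range n).powerset : Set (Finset ℕ)), Sf w = S := by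
      filter_upwards [hFG] with w hw
      refine ⟨Sf w, ?_, rfl⟩
      rw [Finset.mem_coe, Finset.mem_powerset]
      intro i hi
      exact Finset.mem_range.2 (((hSN w hw.2).1 i hi).1)
    rw [Ultrafilter.eventually_exists_mem_iff (Finset.finite_toSet _)] at h1
    obtain ⟨S, _, hS⟩ := h1
    exact ⟨S, hS⟩
  -- the normals converge
  have hN : ∀ i : ℕ, ∃ N : ℝ × ℝ, ‖N‖ = 1 ∧ Tendsto (fun w => Nf w i) F (𝓝 N) := by
    intro i
    have hK : IsCompact (Metric.sphere (0 : ℝ × ℝ) 1) := isCompact_sphere _ _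
    have hm : (F.map fun w => Nf w i : Filter (ℝ × ℝ)) ≤ 𝓟 (Metric.sphere (0 : ℝ × ℝ) 1) := by
      rw [Ultrafilter.coe_map, le_principal_iff, mem_map]
      filter_upwards [hFG] with w hw
      simp only [mem_preimage, mem_sphere_iff_norm, sub_zero]
      exact (hSN w hw.2).2.2.2 i
    obtain ⟨N, hN1, hN2⟩ := hK.ultrafilter_le_nhds _ hm
    refine ⟨N, by simpa using hN1, ?_⟩
    rw [Ultrafilter.coe_map] at hN2
    exact hN2
  choose N hN1 hN2 using hN
  have hid : ∀ i : ℕ, Tendsto (fun w : ℕ → ℝ × ℝ => w i) F (𝓝 (v i)) := fun i =>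
    ((continuous_apply i).tendsto v).mono_left hFv
  refine ⟨S, N, ?_, ?_, ?_⟩
  · -- inward facing
    intro i hi
    have hin : i < n := by
      obtain ⟨w, hw1, hw2⟩ := (hFG.and hSF).exists
      exact ((hSN w hw1.2).1 i (hw2 ▸ hi)).1
    refine ⟨hin, ?_, ?_⟩
    · intro h
      have := hN1 i
      rw [h, norm_zero] at this
      exact zero_ne_one this
    · apply hA i hin (N i) (hN1 i)
      have ht : Tendsto (fun w : ℕ → ℝ × ℝ => (w, Nf w i)) F (𝓝 (v, N i)) := by
        rw [nhds_prod_eq]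
        exact Tendsto.prodMk (tendsto_id.mono_left hFv |>.mono_right le_rfl) (hN2 i)
      apply ht.frequently
      apply Filter.Eventually.frequently
      filter_upwards [hFG, hSF] with w hw1 hw2
      have h3 := (hSN w hw1.2).1 i (hw2 ▸ hi)
      exact ⟨hw1.1, h3.2.1, h3.2.2⟩
  · -- illumination
    apply illuminates_of_dense (hR v hv) hD (G := univ) dense_univ
    rintro q ⟨hq1, hq2⟩ -
    have hjoint := wind_eventually_joint hq1
    have hlit : ∀ᶠ w in F, ∃ i ∈ (S : Set ℕ), Lit (region n w) (w i) (Nf w i) q := by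
      have hc : Tendsto (fun w : ℕ → ℝ × ℝ => (w, q)) F (𝓝 (v, q)) := by
        rw [nhds_prod_eq]
        exact Tendsto.prodMk (tendsto_id.mono_left hFv) tendsto_const_nhds
      filter_upwards [hFG, hSF, hc.eventually hjoint] with w hw1 hw2 hw3
      have hreg : q ∈ region n w := by
        rw [hR w hw1.1]
        right
        exact ⟨hw3.1, by rw [hw3.2]; exact hq2⟩
      obtain ⟨i, hi, hl⟩ := (hSN w hw1.2).2.1 q hreg
      exact ⟨i, by rw [← hw2]; exact hi, hl⟩
    rw [Ultrafilter.eventually_exists_mem_iff (Finset.finite_toSet _)] at hlit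
    obtain ⟨i, hi, hl⟩ := hlit
    refine ⟨i, hi, ?_, ?_⟩
    · -- the half-plane
      have h1 : ∀ᶠ w in F, 0 ≤ (Nf w i).1 * (q.1 - (w i).1) + (Nf w i).2 * (q.2 - (w i).2) :=
        hl.mono fun w hw => hw.1
      have h2 : Tendsto (fun w : ℕ → ℝ × ℝ =>
          (Nf w i).1 * (q.1 - (w i).1) + (Nf w i).2 * (q.2 - (w i).2)) F
          (𝓝 ((N i).1 * (q.1 - (v i).1) + (N i).2 * (q.2 - (v i).2))) := by
        have a1 := (continuous_fst.tendsto (N i)).comp (hN2 i)
        have a2 := (continuous_snd.tendsto (N i)).comp (hN2 i)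
        have b1 := (continuous_fst.tendsto (v i)).comp (hid i)
        have b2 := (continuous_snd.tendsto (v i)).comp (hid i)
        exact (a1.mul (tendsto_const_nhds.sub b1)).add (a2.mul (tendsto_const_nhds.sub b2))
      exact ge_of_tendsto h2 h1
    · -- the segment
      intro x hx
      rw [segment_eq_image] at hx
      obtain ⟨s, hs, rfl⟩ := hx
      by_contra hcon
      rw [hR v hv, mem_union, not_or] at hcon
      have hw0 : wind n v ((1 - s) • v i + s • q) = 0 := by
        by_contra h; exact hcon.2 ⟨hcon.1, h⟩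
      have hj := wind_eventually_joint hcon.1
      have hc : Tendsto (fun w : ℕ → ℝ × ℝ => (w, (1 - s) • w i + s • q)) F
          (𝓝 (v, (1 - s) • v i + s • q)) := by
        rw [nhds_prod_eq]
        refine Tendsto.prodMk (tendsto_id.mono_left hFv) ?_
        exact ((hid i).const_smul (1 - s)).add tendsto_const_nhds
      obtain ⟨w, hw1, hw2, hw3⟩ := ((hFG.and (hl.and (hc.eventually hj)))).exists
      have hmem : (1 - s) • w i + s • q ∈ region n w := by
        apply hw2.2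
        rw [segment_eq_image]
        exact ⟨s, hs, rfl⟩
      rw [hR w hw1.1] at hmem
      rcases hmem with h | h
      · exact hw3.1 h
      · exact h.2 (by rw [hw3.2, hw0])
  · obtain ⟨w, hw1, hw2⟩ := (hFG.and hSF).exists
    rw [← hw2]
    exact (hSN w hw1.2).2.2.1

end Pool.Agent.H95.Poly
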