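import Pool.Agent.H75.PolyJ.Wind

/-!
# Simple polygons form an open set

For `MP_8a5d4f_co` (project FL).
-/

set_option autoImplicit false

namespace Pool.Agent.H95.Poly

open Set Filter Topology Pool.Agent.H54.Fl Pool.Agent.H75.PolyJ

/-- two segments which are not collinear meet only in the common end point -/
theorem segment_inter {a b c : ℝ × ℝ} (h : orient a b c ≠ 0) :
    segment ℝ a b ∩ segment ℝ b c = {b} := by
  ext p
  constructor
  · rintro ⟨h1, h2⟩
    rw [segment_eq_image] at h1 h2
    obtain ⟨s, ⟨hs0, hs1⟩, h1⟩ := h1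
    obtain ⟨t, ⟨ht0, ht1⟩, h2⟩ := h2
    have e1 : (1 - s) * a.1 + s * b.1 = (1 - t) * b.1 + t * c.1 := by
      have := congrArg Prod.fst (h1.trans h2.symm)
      simpa using this
    have e2 : (1 - s) * a.2 + s * b.2 = (1 - t) * b.2 + t * c.2 := by
      have := congrArg Prod.snd (h1.trans h2.symm)
      simpa using this
    have e3 : t * orient a b c = 0 := by
      unfold orient
      linear_combination (b.2 - a.2) * e1 - (b.1 - a.1) * e2
    have ht : t = 0 := by
      rcases mul_eq_zero.1 e3 with h' | h'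
      · exact h'
      · exact absurd h' h
    rw [mem_singleton_iff, ← h2, ht]
    simp
  · rintro rfl
    exact ⟨right_mem_segment ℝ _ _, left_mem_segment ℝ _ _⟩

theorem continuous_orient3 {X : Type*} [TopologicalSpace X] {A B C : X → ℝ × ℝ}
    (hA : Continuous A) (hB : Continuous B) (hC : Continuous C) :
    Continuous fun x => orient (A x) (B x) (C x) := by
  unfold orient; fun_prop

/-- disjointness of two segments is an open condition -/
theorem eventually_disjoint_segment {X : Type*} [TopologicalSpace X] {A B C D : X → ℝ × ℝ}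
    (hA : Continuous A) (hB : Continuous B) (hC : Continuous C) (hD : Continuous D) {x : X}
    (h : Disjoint (segment ℝ (A x) (B x)) (segment ℝ (C x) (D x))) :
    ∀ᶠ y in 𝓝 x, Disjoint (segment ℝ (A y) (B y)) (segment ℝ (C y) (D y)) := by
  have hK : IsCompact ((Icc (0 : ℝ) 1) ×ˢ (Icc (0 : ℝ) 1)) := isCompact_Icc.prod isCompact_Icc
  have key : ∀ᶠ y in 𝓝 x, ∀ st ∈ (Icc (0 : ℝ) 1) ×ˢ (Icc (0 : ℝ) 1),
      (1 - st.1) • A y + st.1 • B y ≠ (1 - st.2) • C y + st.2 • D y := by
    apply hK.eventually_forall_of_forall_eventually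
    intro st hst
    have hne : (1 - st.1) • A x + st.1 • B x ≠ (1 - st.2) • C x + st.2 • D x := by
      intro he
      refine (Set.disjoint_left.1 h) (a := (1 - st.1) • A x + st.1 • B x) ?_ ?_
      · rw [segment_eq_image]; exact ⟨st.1, hst.1, rfl⟩
      · rw [he, segment_eq_image]; exact ⟨st.2, hst.2, rfl⟩
    have hc : Continuous fun z : X × (ℝ × ℝ) =>
        ((1 - z.2.1) • A z.1 + z.2.1 • B z.1, (1 - z.2.2) • C z.1 + z.2.2 • D z.1) := by
      fun_prop
    have ho : IsOpen {w : (ℝ × ℝ) × (ℝ × ℝ) | w.1 ≠ w.2} :=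
      isOpen_ne_fun continuous_fst continuous_snd
    have hc' := hc.continuousAt (x := (x, st))
    exact hc'.eventually (ho.mem_nhds hne)
  filter_upwards [key] with y hy
  rw [Set.disjoint_left]
  intro p hp1 hp2
  rw [segment_eq_image] at hp1 hp2
  obtain ⟨s, hs, h1⟩ := hp1
  obtain ⟨t, ht, h2⟩ := hp2
  exact hy (s, t) ⟨hs, ht⟩ (h1.trans h2.symm)

/-- simplicity is an open condition -/
theorem eventually_simple {n : ℕ} {v : ℕ → ℝ × ℝ} (h : IsSimplePolygon n v) :
    ∀ᶠ w in 𝓝 v, IsSimplePolygon n w := by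
  have hc : ∀ i : ℕ, Continuous fun w : ℕ → ℝ × ℝ => w i := fun i => continuous_apply i
  have h1 : ∀ᶠ w in 𝓝 v, ∀ i ∈ Finset.range n,
      orient (w i) (w ((i + 1) % n)) (w ((i + 2) % n)) ≠ 0 := by
    rw [Finset.eventually_all]
    intro i hi
    have := (continuous_orient3 (hc i) (hc ((i + 1) % n)) (hc ((i + 2) % n))).continuousAt
      (x := v)
    exact this.eventually (isOpen_ne.mem_nhds (h.genuine i (Finset.mem_range.1 hi)))
  have h2 : ∀ᶠ w in 𝓝 v, ∀ i ∈ Finset.range n, ∀ j ∈ Finset.range n,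
      i ≠ j → (i + 1) % n ≠ j → (j + 1) % n ≠ i → Disjoint (edge n w i) (edge n w j) := by
    rw [Finset.eventually_all]
    intro i hi
    rw [Finset.eventually_all]
    intro j hj
    by_cases hij : i ≠ j ∧ (i + 1) % n ≠ j ∧ (j + 1) % n ≠ i
    · have := eventually_disjoint_segment (hc i) (hc ((i + 1) % n)) (hc j) (hc ((j + 1) % n))
        (h.nonadjacent i (Finset.mem_range.1 hi) j (Finset.mem_range.1 hj) hij.1 hij.2.1 hij.2.2)
      filter_upwards [this] with w hw _ _ _
      exact hw
    · filter_upwards with w a b c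
      exact absurd ⟨a, b, c⟩ hij
  filter_upwards [h1, h2] with w hw1 hw2
  refine ⟨h.three_le, ?_, ?_, ?_⟩
  · intro i hi
    have e : ((i + 1) % n + 1) % n = (i + 2) % n := by
      rw [Nat.mod_add_mod]
    unfold edge
    rw [e]
    exact segment_inter (hw1 i (Finset.mem_range.2 hi))
  · intro i hi j hj
    exact hw2 i (Finset.mem_range.2 hi) j (Finset.mem_range.2 hj)
  · intro i hi
    exact hw1 i (Finset.mem_range.2 hi)

/-- the sign of an orientation is locally constant -/
theorem eventually_orient_pos {v : ℕ → ℝ × ℝ} {i j k : ℕ} (h : 0 < orient (v i) (v j) (v k)) :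
    ∀ᶠ w in 𝓝 v, 0 < orient (w i) (w j) (w k) := by
  have := (continuous_orient3 (continuous_apply i) (continuous_apply j)
    (continuous_apply k)).continuousAt (x := v)
  exact this.eventually (isOpen_Ioi.mem_nhds h)

theorem eventually_orient_neg {v : ℕ → ℝ × ℝ} {i j k : ℕ} (h : orient (v i) (v j) (v k) < 0) :
    ∀ᶠ w in 𝓝 v, orient (w i) (w j) (w k) < 0 := by
  have := (continuous_orient3 (continuous_apply i) (continuous_apply j)
    (continuous_apply k)).continuousAt (x := v)
  exact this.eventually (isOpen_Iio.mem_nhds h)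

end Pool.Agent.H95.Poly
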