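import Pool.Agent.H95.Poly.Limit
import Pool.Agent.H75.PolyJ.Rev
import Pool.Agent.H54.Fl.Final

/-!
# Assembly: from generic counterclockwise simple polygons to `f n` and the limsup

For `MP_8a5d4f_co` (project FL).
-/

set_option autoImplicit false

namespace Pool.Agent.H95.Poly

open Set Filter Topology Pool.Agent.H54.Fl Pool.Agent.H75.PolyJ
open scoped ENNReal

theorem regW {n : ℕ} {w : ℕ → ℝ × ℝ} (h : IsSimplePolygon n w) : RegW n w := region_eq h

theorem curve_subset_closure {n : ℕ} {w : ℕ → ℝ × ℝ} (h : IsSimplePolygon n w) :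
    curve n w ⊆ closure (Ins n w) := by
  have e : Ins n w = inner n w := rfl
  rw [e, closure_inner h]
  exact curve_subset_region h

/-- nearby curves of a counterclockwise curve are counterclockwise -/
theorem eventually_ccw {n : ℕ} {v : ℕ → ℝ × ℝ} (hc : CCW n v) : ∀ᶠ w in 𝓝 v, CCW n w := by
  obtain ⟨p, hp, hp1⟩ := hc
  have h1 := wind_eventually_joint hp
  have ht : Tendsto (fun w : ℕ → ℝ × ℝ => (w, p)) (𝓝 v) (𝓝 (v, p)) := by
    rw [nhds_prod_eq]
    exact Tendsto.prodMk tendsto_id tendsto_const_nhds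
  filter_upwards [ht.eventually h1] with w hw
  exact ⟨p, hw.1, by rw [hw.2]; exact hp1⟩

theorem genuine_at {n : ℕ} {v : ℕ → ℝ × ℝ} (h : IsSimplePolygon n v) {j : ℕ} (hj : j < n) :
    orient (v (pv n j)) (v j) (v (nx n j)) ≠ 0 := by
  have h3 := h.three_le
  have e1 : (pv n j + 1) % n = j := by
    unfold pv
    rw [Nat.mod_add_mod, show j + (n - 1) + 1 = j + n by omega, Nat.add_mod_right,
      Nat.mod_eq_of_lt hj]
  have e2 : (pv n j + 2) % n = nx n j := by
    unfold pv nx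
    rw [Nat.mod_add_mod, show j + (n - 1) + 2 = j + 1 + n by omega, Nat.add_mod_right]
  have := h.genuine (pv n j) (pv_lt (by omega) j)
  rw [e1, e2] at this
  exact this

/-- inward-facing lights pass to the limit -/
theorem inward_limit {n : ℕ} {v : ℕ → ℝ × ℝ} (hv : IsSimplePolygon n v) (hc : CCW n v)
    {i : ℕ} (hi : i < n) {N : ℝ × ℝ} (hN : ‖N‖ = 1)
    (hf : ∃ᶠ x : (ℕ → ℝ × ℝ) × (ℝ × ℝ) in 𝓝 (v, N), IsSimplePolygon n x.1 ∧ x.2 ≠ 0 ∧
        InwardFacing (region n x.1) (x.1 i) (halfPlane (x.1 i) x.2)) :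
    InwardFacing (region n v) (v i) (halfPlane (v i) N) := by
  have hN0 : N ≠ 0 := by
    intro h
    rw [h, norm_zero] at hN
    exact zero_ne_one hN
  rw [inwardFacing_iff hv hc hi hN0]
  have hccw : ∀ᶠ x : (ℕ → ℝ × ℝ) × (ℝ × ℝ) in 𝓝 (v, N), CCW n x.1 := by
    rw [nhds_prod_eq]
    exact (eventually_ccw hc).prod_inl _
  have hcont : ∀ k : ℕ, Continuous fun x : (ℕ → ℝ × ℝ) × (ℝ × ℝ) =>
      x.2.1 * ((x.1 k).1 - (x.1 i).1) + x.2.2 * ((x.1 k).2 - (x.1 i).2) := by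
    intro k
    have a : ∀ m : ℕ, Continuous fun x : (ℕ → ℝ × ℝ) × (ℝ × ℝ) => x.1 m := fun m =>
      (continuous_apply m).comp continuous_fst
    have b := a k
    have c := a i
    fun_prop
  have hor : Continuous fun x : (ℕ → ℝ × ℝ) × (ℝ × ℝ) =>
      orient (x.1 (pv n i)) (x.1 i) (x.1 (nx n i)) := by
    have a : ∀ m : ℕ, Continuous fun x : (ℕ → ℝ × ℝ) × (ℝ × ℝ) => x.1 m := fun m =>
      (continuous_apply m).comp continuous_fst
    exact continuous_orient3 (a _) (a _) (a _)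
  have hf2 := hf.and_eventually hccw
  have key : ∃ᶠ x : (ℕ → ℝ × ℝ) × (ℝ × ℝ) in 𝓝 (v, N),
      (0 < orient (x.1 (pv n i)) (x.1 i) (x.1 (nx n i)) ∧
        0 ≤ x.2.1 * ((x.1 (nx n i)).1 - (x.1 i).1) + x.2.2 * ((x.1 (nx n i)).2 - (x.1 i).2) ∧
        0 ≤ x.2.1 * ((x.1 (pv n i)).1 - (x.1 i).1) + x.2.2 * ((x.1 (pv n i)).2 - (x.1 i).2)) ∨
      (orient (x.1 (pv n i)) (x.1 i) (x.1 (nx n i)) < 0 ∧
        x.2.1 * ((x.1 (nx n i)).1 - (x.1 i).1) + x.2.2 * ((x.1 (nx n i)).2 - (x.1 i).2) ≤ 0 ∧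
        x.2.1 * ((x.1 (pv n i)).1 - (x.1 i).1) + x.2.2 * ((x.1 (pv n i)).2 - (x.1 i).2) ≤ 0) := by
    refine hf2.mono ?_
    rintro x ⟨⟨h1, h2, h3⟩, h4⟩
    exact (inwardFacing_iff h1 h4 hi h2).1 h3
  rcases lt_or_gt_of_ne (genuine_at hv hi) with hs | hs
  · right
    have hev : ∀ᶠ x : (ℕ → ℝ × ℝ) × (ℝ × ℝ) in 𝓝 (v, N),
        orient (x.1 (pv n i)) (x.1 i) (x.1 (nx n i)) < 0 :=
      (hor.tendsto (v, N)).eventually (gt_mem_nhds hs)
    have k2 := key.and_eventually hev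
    refine ⟨hs, ?_, ?_⟩
    · have hcl : IsClosed {x : (ℕ → ℝ × ℝ) × (ℝ × ℝ) |
          x.2.1 * ((x.1 (nx n i)).1 - (x.1 i).1) + x.2.2 * ((x.1 (nx n i)).2 - (x.1 i).2) ≤ 0} :=
        isClosed_le (hcont _) continuous_const
      apply hcl.mem_of_frequently_of_tendsto (k2.mono ?_) tendsto_id
      rintro x ⟨h1 | h1, h2⟩
      · exact absurd h2 (not_lt.2 h1.1.le)
      · exact h1.2.1
    · have hcl : IsClosed {x : (ℕ → ℝ × ℝ) × (ℝ × ℝ) |
          x.2.1 * ((x.1 (pv n i)).1 - (x.1 i).1) + x.2.2 * ((x.1 (pv n i)).2 - (x.1 i).2) ≤ 0} :=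
        isClosed_le (hcont _) continuous_const
      apply hcl.mem_of_frequently_of_tendsto (k2.mono ?_) tendsto_id
      rintro x ⟨h1 | h1, h2⟩
      · exact absurd h2 (not_lt.2 h1.1.le)
      · exact h1.2.2
  · left
    have hev : ∀ᶠ x : (ℕ → ℝ × ℝ) × (ℝ × ℝ) in 𝓝 (v, N),
        0 < orient (x.1 (pv n i)) (x.1 i) (x.1 (nx n i)) :=
      (hor.tendsto (v, N)).eventually (lt_mem_nhds hs)
    have k2 := key.and_eventually hev
    refine ⟨hs, ?_, ?_⟩
    · have hcl : IsClosed {x : (ℕ → ℝ × ℝ) × (ℝ × ℝ) |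
          0 ≤ x.2.1 * ((x.1 (nx n i)).1 - (x.1 i).1) +
            x.2.2 * ((x.1 (nx n i)).2 - (x.1 i).2)} :=
        isClosed_le continuous_const (hcont _)
      apply hcl.mem_of_frequently_of_tendsto (k2.mono ?_) tendsto_id
      rintro x ⟨h1 | h1, h2⟩
      · exact h1.2.1
      · exact absurd h2 (not_lt.2 h1.1.le)
    · have hcl : IsClosed {x : (ℕ → ℝ × ℝ) × (ℝ × ℝ) |
          0 ≤ x.2.1 * ((x.1 (pv n i)).1 - (x.1 i).1) +
            x.2.2 * ((x.1 (pv n i)).2 - (x.1 i).2)} :=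
        isClosed_le continuous_const (hcont _)
      apply hcl.mem_of_frequently_of_tendsto (k2.mono ?_) tendsto_id
      rintro x ⟨h1 | h1, h2⟩
      · exact h1.2.2
      · exact absurd h2 (not_lt.2 h1.1.le)

/-- It is enough to light the counterclockwise polygons in general position which avoid the zero
set of a given nonzero polynomial. -/
theorem f_le_of_gen {n k : ℕ} {P : VP} (hP : P ≠ 0)
    (h : ∀ w, IsSimplePolygon n w → CCW n w → Gen n w → ev w P ≠ 0 → CanLight n w k) :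
    f n ≤ k := by
  apply f_le_of_ccw
  intro v hv hc
  have hl : CanLight n v k := by
    refine canLight_limit (fun w hw => regW hw) hv (curve_subset_closure hv) ?_ ?_
    · intro i hi N hN hf
      exact inward_limit hv hc hi hN hf
    · refine ((frequently_gen n hP v).and_eventually
        ((eventually_simple hv).and (eventually_ccw hc))).mono ?_
      rintro w ⟨⟨h1, h2⟩, h3, h4⟩
      exact ⟨h3, h w h3 h4 h1 h2⟩
  obtain ⟨S, N, h1, h2, h3⟩ := hl
  exact ⟨S, N, h1, h2, by exact_mod_cast h3⟩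

/-- a point on no line through two vertices -/
def GenPt (n : ℕ) (w : ℕ → ℝ × ℝ) (q : ℝ × ℝ) : Prop :=
  ∀ i < n, ∀ j < n, i ≠ j → orient (w i) (w j) q ≠ 0

theorem dense_genPt {n : ℕ} {w : ℕ → ℝ × ℝ} (hG : Gen n w) (hn : 3 ≤ n) :
    Dense {q | GenPt n w q} := by
  classical
  set s : Finset ((ℝ × ℝ) × (ℝ × ℝ)) := (((Finset.range n) ×ˢ (Finset.range n)).filter
    (fun x => x.1 ≠ x.2)).image (fun x => (w x.1, w x.2)) with hs
  have hd : Dense {p : ℝ × ℝ | ∀ l ∈ s, orient l.1 l.2 p ≠ 0} := by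
    apply dense_compl_lines
    intro l hl
    rw [hs, Finset.mem_image] at hl
    obtain ⟨⟨i, j⟩, hij, rfl⟩ := hl
    simp only [Finset.mem_filter, Finset.mem_product, Finset.mem_range] at hij
    obtain ⟨⟨hi, hj⟩, hne⟩ := hij
    intro he
    simp only at he
    obtain ⟨k, hk, hki, hkj⟩ : ∃ k, k < n ∧ i ≠ k ∧ j ≠ k := by
      by_contra hcon
      push Not at hcon
      have c0 := hcon 0 (by omega)
      have c1 := hcon 1 (by omega)
      have c2 := hcon 2 (by omega)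
      omega
    apply hG i hi j hj k hk hne hki hkj
    unfold orient
    rw [he]; ring
  refine hd.mono ?_
  intro q hq i hi j hj hij
  exact hq (w i, w j) (by
    rw [hs, Finset.mem_image]
    exact ⟨(i, j), by simp [hi, hj, hij], rfl⟩)

/-- **Final reduction.**  Fourteen light sets with `9 (n - 1)` lights in total for every
counterclockwise polygon in general position, tested at general points only, give
`f n ≤ ⌊9 (n - 1) / 14⌋`. -/
theorem f_le_of_systems {n m t : ℕ} (hm : 0 < m)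
    (h : ∀ w, IsSimplePolygon n w → CCW n w → Gen n w →
      ∃ (S : Fin m → Finset ℕ) (N : Fin m → ℕ → ℝ × ℝ),
        (∀ l, IsLightSet n w (S l) (N l)) ∧
        (∀ l, ∀ q ∈ inner n w, GenPt n w q → ∃ i ∈ S l, Lit (region n w) (w i) (N l i) q) ∧
        ∑ l, (S l).card ≤ t) : f n ≤ ((t / m : ℕ) : ℕ∞) := by
  refine f_le_of_gen (P := (1 : VP)) one_ne_zero ?_
  intro w hw hc hG _
  obtain ⟨S, N, h1, h2, h3⟩ := h w hw hc hG
  obtain ⟨l, hl⟩ : ∃ l : Fin m, (S l).card ≤ t / m := by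
    by_contra hcon
    push Not at hcon
    have h4 : ∑ _l : Fin m, (t / m + 1) ≤ ∑ l, (S l).card :=
      Finset.sum_le_sum fun l _ => hcon l
    rw [Finset.sum_const, Finset.card_univ, Fintype.card_fin, smul_eq_mul] at h4
    have h5 : t < m * (t / m + 1) := Nat.lt_mul_div_succ t hm
    omega
  refine ⟨S l, N l, h1 l, ?_, hl⟩
  exact illuminates_of_dense (regW hw) (curve_subset_closure hw) (dense_genPt hG hw.three_le)
    (fun q hq hq2 => h2 l q hq hq2)

/-- the exact constant -/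
theorem limsup_eq (h : ∀ n, 3 ≤ n → f n ≤ ((9 * (n - 1) / 14 : ℕ) : ℕ∞)) :
    limsup (fun n : ℕ => (f n : ℝ≥0∞) / n) atTop = 9 / 14 := by
  apply le_antisymm _ le_limsup_f
  apply limsup_le_of_le
  · isBoundedDefault
  · filter_upwards [eventually_ge_atTop 3] with n hn
    have h1 : (f n : ℝ≥0∞) ≤ ((9 * (n - 1) / 14 : ℕ) : ℝ≥0∞) := by
      have := h n hn
      have h2 := ENat.toENNReal_mono this
      simpa using h2
    have hn0 : (n : ℝ≥0∞) ≠ 0 := by
      exact_mod_cast (by omega : n ≠ 0)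
    rw [ENNReal.div_le_iff hn0 (ENNReal.natCast_ne_top n)]
    refine h1.trans ?_
    rw [← ENNReal.mul_div_right_comm, ENNReal.le_div_iff_mul_le (Or.inl (by norm_num))
      (Or.inl (by norm_num))]
    have h3 : 9 * (n - 1) / 14 * 14 ≤ 9 * n := by omega
    exact_mod_cast h3

end Pool.Agent.H95.Poly
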